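import Pool.Agent.Lib.helper15.CompSer

set_option autoImplicit false

namespace Pool.Agent.Results.MP_bc5942_al.Principal

open H15CompSer

/-- A principal (chief) series: a finite strictly increasing chain of normal subgroups from `1` to
`G` with no normal subgroup strictly between neighbours. -/
def HasPrincipalSeries (G : Type) [Group G] : Prop :=
  ∃ (n : ℕ) (s : Fin (n + 1) → Subgroup G), s 0 = ⊥ ∧ s (Fin.last n) = ⊤ ∧ (∀ i, (s i).Normal) ∧
    ∀ i : Fin n, s i.castSucc < s i.succ ∧
      ∀ M : Subgroup G, M.Normal → s i.castSucc ≤ M → M ≤ s i.succ →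
        M = s i.castSucc ∨ M = s i.succ

lemma of_simple (G : Type) [Group G] [IsSimpleGroup G] : HasPrincipalSeries G := by
  refine ⟨1, ![⊥, ⊤], rfl, rfl, fun i => ?_, fun i => ?_⟩
  · fin_cases i
    · exact Subgroup.normal_bot
    · exact Subgroup.normal_top
  · obtain rfl : i = 0 := Subsingleton.elim _ _
    exact ⟨bot_lt_top, fun M hM _ _ => hM.eq_bot_or_eq_top⟩

lemma step {G : Type} [Group G] (Z : Set G) (hZc : ∀ z ∈ Z, ∀ g, z * g = g * z)
    (hZ2 : ∀ z ∈ Z, z * z = 1) (hZm : ∀ z ∈ Z, ∀ w ∈ Z, z * w ∈ Z) (U V : Subgroup G)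
    (hn : U.Normal) (hUV : U ≤ V)
    (hmax : ∀ M : Subgroup G, M.Normal → U ≤ M → M ≤ V → M = U ∨ M = V)
    (hfin : (Z ∩ U).Finite) : (Z ∩ V).Finite := by
  by_cases h : Z ∩ V ⊆ U
  · exact hfin.subset fun z hz => ⟨hz.1, h hz⟩
  obtain ⟨m, ⟨hmZ, hmV⟩, hmU⟩ := Set.not_subset.1 h
  have hmi : m⁻¹ = m := inv_eq_of_mul_eq_one_right (hZ2 m hmZ)
  let K : Subgroup G :=
    { carrier := {v | v ∈ U ∨ m * v ∈ U}
      one_mem' := Or.inl (one_mem _)
      mul_mem' := by
        rintro a b (ha | ha) (hb | hb)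
        · exact Or.inl (mul_mem ha hb)
        · right
          have := mul_mem ha hb
          rwa [← mul_assoc, ← hZc m hmZ, mul_assoc] at this
        · right
          have := mul_mem ha hb
          rwa [mul_assoc] at this
        · left
          have := mul_mem ha hb
          rwa [mul_assoc, ← mul_assoc a, ← hZc m hmZ, ← mul_assoc, ← mul_assoc, hZ2 m hmZ,
            one_mul] at this
      inv_mem' := by
        rintro a (ha | ha)
        · exact Or.inl (inv_mem ha)
        · right
          have := inv_mem ha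
          rwa [mul_inv_rev, hmi, ← hZc m hmZ] at this }
  have hK : K.Normal := by
    constructor
    rintro a (ha | ha) g
    · exact Or.inl (hn.conj_mem a ha g)
    · right
      have := hn.conj_mem (m * a) ha g
      rwa [← mul_assoc g m, ← hZc m hmZ g, mul_assoc, mul_assoc, ← mul_assoc g] at this
  have hKV : K ≤ V := by
    rintro a (ha | ha)
    · exact hUV ha
    · exact (V.mul_mem_cancel_left hmV).1 (hUV ha)
  rcases hmax K hK (fun v hv => Or.inl hv) hKV with h1 | h1
  · exfalso
    have : m ∈ K := Or.inr (by rw [hZ2 m hmZ]; exact one_mem _)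
    rw [h1] at this
    exact hmU this
  · refine (hfin.union (hfin.image (fun z => m * z))).subset ?_
    rintro z ⟨hzZ, hzV⟩
    have : z ∈ K := by rw [h1]; exact hzV
    rcases this with h2 | h2
    · exact Or.inl ⟨hzZ, h2⟩
    · exact Or.inr ⟨m * z, ⟨hZm m hmZ z hzZ, h2⟩, by
        simp only [← mul_assoc, hZ2 m hmZ, one_mul]⟩

theorem result : ∃ (G : Type) (_ : Group G) (A B : Subgroup G),
    (∀ g : G, ∃ a ∈ A, ∃ b ∈ B, g = a * b) ∧ HasPrincipalSeries A ∧ HasPrincipalSeries B ∧
      ¬ HasPrincipalSeries G := by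
  refine ⟨Gs, inferInstance, (phi hh).range, (phi 0).range, factor, of_simple _, of_simple _, ?_⟩
  rintro ⟨n, s, h0, hl, hn, hs⟩
  have key : ∀ i : Fin (n + 1), (Set.range cen ∩ s i).Finite := by
    intro i
    induction i using Fin.induction with
    | zero =>
      rw [h0]
      exact (Set.finite_singleton 1).subset fun z hz => hz.2
    | succ i ih =>
      obtain ⟨h1, h4⟩ := hs i
      refine step _ ?_ ?_ ?_ _ _ (hn _) h1.le h4 ih
      · rintro _ ⟨c, rfl⟩ g; exact cen_comm c g
      · rintro _ ⟨c, rfl⟩; exact cen_sq c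
      · rintro _ ⟨c, rfl⟩ _ ⟨d, rfl⟩; exact ⟨c * d, map_mul _ _ _⟩
  have := key (Fin.last n)
  rw [hl, Subgroup.coe_top, Set.inter_univ] at this
  exact Set.infinite_range_of_injective cen_inj this

end Pool.Agent.Results.MP_bc5942_al.Principal
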